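import Mathlib

/-!
# The sum of the inverses of the primes in a residue class diverges
-/

set_option autoImplicit false

namespace Pool.Agent.H68.SicA

open ArithmeticFunction ArithmeticFunction.vonMangoldt

/-- The sum of `1 / p` over the primes in an invertible residue class diverges. -/
theorem not_summable_inv_residue {q : ℕ} [NeZero q] {a : ZMod q} (ha : IsUnit a) :
    ¬ Summable (fun p : ℕ => if p.Prime ∧ (p : ZMod q) = a then (1 : ℝ) / p else 0) := by
  intro H
  obtain ⟨C, hC⟩ := LSeries_residueClass_lower_bound ha
  set f : ℕ → ℝ := fun p => if p.Prime ∧ (p : ZMod q) = a then (1 : ℝ) / p else 0 with hf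
  have hf0 : ∀ n, 0 ≤ f n := by
    intro n
    simp only [hf]
    split_ifs
    · positivity
    · exact le_rfl
  set g : ℕ → ℝ := fun n => (if n.Prime then 0 else residueClass a n) / n with hg
  have hgs : Summable g := summable_residueClass_non_primes_div a
  have hg0 : ∀ n, 0 ≤ g n := by
    intro n
    have h1 := residueClass_nonneg a n
    simp only [hg]
    split_ifs
    · simp
    · positivity
  have hc : 0 < (q.totient : ℝ)⁻¹ := inv_pos.mpr (mod_cast q.totient.pos_of_neZero)
  -- the tail
  obtain ⟨s, hs⟩ := (summable_iff_vanishing_norm.mp H) ((q.totient : ℝ)⁻¹ / 4) (by positivity)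
  obtain ⟨N, hN⟩ : ∃ N : ℕ, ∀ n ∈ s, n < N := ⟨s.sup id + 1, fun n hn =>
    Nat.lt_succ_of_le (Finset.le_sup (f := id) hn)⟩
  set T : ℕ → ℝ := fun n => if n < N then 0 else f n with hT
  have hT0 : ∀ n, 0 ≤ T n := by
    intro n
    simp only [hT]
    split_ifs
    · exact le_rfl
    · exact hf0 n
  have hTf : ∀ n, T n ≤ f n := by
    intro n
    simp only [hT]
    split_ifs
    · exact hf0 n
    · exact le_rfl
  have hTs : Summable T := Summable.of_nonneg_of_le hT0 hTf H
  have hTb : ∑' n, T n ≤ (q.totient : ℝ)⁻¹ / 4 := by
    refine Summable.tsum_le_of_sum_le hTs fun t => ?_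
    have h1 : ∑ n ∈ t, T n = ∑ n ∈ t.filter (fun n => ¬ n < N), f n := by
      rw [Finset.sum_filter]
      apply Finset.sum_congr rfl
      intro n _
      simp only [hT]
      split_ifs <;> simp_all
    rw [h1]
    have h2 := hs (t.filter fun n => ¬ n < N) (by
      rw [Finset.disjoint_left]
      intro n hn hn'
      exact (Finset.mem_filter.mp hn).2 (hN n hn'))
    exact (le_abs_self _).trans h2.le
  -- the head
  set L : ℕ → ℝ := fun n => if n < N then f n * Real.log n else 0 with hL
  have hLs : Summable L := by
    refine summable_of_ne_finset_zero (s := Finset.range N) fun n hn => ?_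
    simp only [hL]
    rw [if_neg (fun h => hn (Finset.mem_range.mpr h))]
  have key : ∀ x : ℝ, x ∈ Set.Ioc (1 : ℝ) 2 →
      (q.totient : ℝ)⁻¹ / (x - 1) - C ≤ ∑' n, g n + ∑' n, L n +
        (q.totient : ℝ)⁻¹ / 4 / (x - 1) := by
    intro x hx
    have hx1 : 0 < x - 1 := sub_pos.mpr hx.1
    have h1 : ∀ n : ℕ, residueClass a n / (n : ℝ) ^ x ≤ g n + L n + T n / (x - 1) := by
      intro n
      rcases Nat.eq_zero_or_pos n with rfl | hn
      · have h2 : residueClass a 0 = 0 := residueClass_apply_zero a
        rw [h2, zero_div]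
        have h3 := hg0 0
        have h4 := hT0 0
        have h5 : 0 ≤ L 0 := by
          simp only [hL]
          simp
        positivity
      have hn' : (0 : ℝ) < n := by exact_mod_cast hn
      have hn1 : (1 : ℝ) ≤ n := by exact_mod_cast hn
      have hlog : 0 ≤ Real.log n := Real.log_nonneg hn1
      have hL0 : 0 ≤ L n := by
        simp only [hL]
        split_ifs
        · exact mul_nonneg (hf0 n) hlog
        · exact le_rfl
      have hTd : 0 ≤ T n / (x - 1) := div_nonneg (hT0 n) hx1.le
      have hpow : (n : ℝ) ≤ (n : ℝ) ^ x := by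
        conv_lhs => rw [← Real.rpow_one (n : ℝ)]
        exact Real.rpow_le_rpow_of_exponent_le hn1 hx.1.le
      by_cases hp : n.Prime
      · by_cases hna : (n : ZMod q) = a
        · have h2 : residueClass a n = Real.log n := by
            simp only [residueClass]
            rw [Set.indicator_of_mem (by exact hna), vonMangoldt_apply_prime hp]
          have h3 : f n = 1 / n := by
            simp only [hf]
            rw [if_pos ⟨hp, hna⟩]
          rw [h2]
          by_cases hnN : n < N
          · have h4 : L n = f n * Real.log n := by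
              simp only [hL]
              rw [if_pos hnN]
            have h5 : Real.log n / (n : ℝ) ^ x ≤ f n * Real.log n := by
              rw [h3, one_div, mul_comm, ← div_eq_mul_inv]
              exact div_le_div_of_nonneg_left hlog hn' hpow
            have h6 := hg0 n
            linarith
          · have h4 : T n = f n := by
              simp only [hT]
              rw [if_neg hnN]
            have h5 : Real.log n / (n : ℝ) ^ x ≤ T n / (x - 1) := by
              have h6 : Real.log n ≤ (n : ℝ) ^ (x - 1) / (x - 1) :=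
                Real.log_le_rpow_div hn'.le hx1
              have h7 : (n : ℝ) ^ x = (n : ℝ) ^ (x - 1) * n := by
                have h8 := Real.rpow_add_one hn'.ne' (x - 1)
                rwa [sub_add_cancel] at h8
              have h8 : (0 : ℝ) < (n : ℝ) ^ (x - 1) := Real.rpow_pos_of_pos hn' _
              rw [h4, h3, h7, div_le_div_iff₀ (mul_pos h8 hn') hx1]
              rw [le_div_iff₀ hx1] at h6
              have h9 : (1 : ℝ) / n * ((n : ℝ) ^ (x - 1) * n) = (n : ℝ) ^ (x - 1) := by
                field_simp
              rw [h9]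
              exact h6
            have h6 := hg0 n
            linarith
        · have h2 : residueClass a n = 0 := by
            simp only [residueClass]
            exact Set.indicator_of_notMem (by exact hna) _
          rw [h2, zero_div]
          have h6 := hg0 n
          positivity
      · have h2 : g n = residueClass a n / n := by
          simp only [hg]
          rw [if_neg hp]
        have h3 : residueClass a n / (n : ℝ) ^ x ≤ residueClass a n / n :=
          div_le_div_of_nonneg_left (residueClass_nonneg a n) hn' hpow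
        linarith
    have hsum : Summable fun n => g n + L n + T n / (x - 1) :=
      (hgs.add hLs).add (hTs.div_const _)
    have h2 : ∑' n, residueClass a n / (n : ℝ) ^ x ≤ ∑' n, (g n + L n + T n / (x - 1)) := by
      refine Summable.tsum_le_tsum h1 ?_ hsum
      refine Summable.of_nonneg_of_le (fun n => ?_) h1 hsum
      exact div_nonneg (residueClass_nonneg a n) (Real.rpow_nonneg (Nat.cast_nonneg n) _)
    have h3 : ∑' n, (g n + L n + T n / (x - 1)) = ∑' n, g n + ∑' n, L n +
        (∑' n, T n) / (x - 1) := by
      rw [(hgs.add hLs).tsum_add (hTs.div_const _), hgs.tsum_add hLs, tsum_div_const]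
    have h4 : (∑' n, T n) / (x - 1) ≤ (q.totient : ℝ)⁻¹ / 4 / (x - 1) :=
      div_le_div_of_nonneg_right hTb hx1.le
    have h5 := hC hx
    linarith
  -- the contradiction
  set B : ℝ := |∑' n, g n| + |∑' n, L n| + |C| + 1 with hB
  have hBpos : 0 < B := by positivity
  obtain ⟨δ, hδ, hδ1, hδ2⟩ : ∃ δ : ℝ, 0 < δ ∧ δ ≤ 1 ∧ B ≤ (q.totient : ℝ)⁻¹ / 4 / δ := by
    refine ⟨min 1 ((q.totient : ℝ)⁻¹ / 4 / B), by positivity, min_le_left _ _, ?_⟩
    have h1 : 0 < min 1 ((q.totient : ℝ)⁻¹ / 4 / B) := by positivity
    rw [le_div_iff₀ h1]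
    calc B * min 1 ((q.totient : ℝ)⁻¹ / 4 / B) ≤ B * ((q.totient : ℝ)⁻¹ / 4 / B) :=
          mul_le_mul_of_nonneg_left (min_le_right _ _) hBpos.le
      _ = (q.totient : ℝ)⁻¹ / 4 := by field_simp
  have h1 := key (1 + δ) ⟨by linarith, by linarith⟩
  rw [add_sub_cancel_left] at h1
  have h2 : (q.totient : ℝ)⁻¹ / δ = 4 * ((q.totient : ℝ)⁻¹ / 4 / δ) := by ring
  have h3 := le_abs_self (∑' n, g n)
  have h4 := le_abs_self (∑' n, L n)
  have h5 := le_abs_self C
  have h6 : 0 < (q.totient : ℝ)⁻¹ / 4 / δ := by positivity
  rw [h2] at h1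
  linarith

/-- The sum of `1 / p` over the primes `p ≡ 5 (mod 8)` diverges. -/
theorem not_summable_inv :
    ¬ Summable (fun p : ℕ => if p.Prime ∧ p % 8 = 5 then (1 : ℝ) / p else 0) := by
  have h5 : IsUnit (5 : ZMod 8) := by decide
  have h := not_summable_inv_residue h5
  have h1 : ∀ p : ℕ, (p : ZMod 8) = 5 ↔ p % 8 = 5 := by
    intro p
    have h2 : (5 : ZMod 8) = ((5 : ℕ) : ZMod 8) := rfl
    rw [h2, ZMod.natCast_eq_natCast_iff']
  simpa only [h1] using h

end Pool.Agent.H68.SicA
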